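import Mathlib

set_option autoImplicit false
open Filter Complex Set Topology
open scoped ComplexConjugate Real

namespace Pool.Agent.H633Z.Esc

noncomputable section

def P (w : ℂ) : ℂ := 27 * w * (w - 1) ^ 2

def f (z : ℂ) : ℂ := P (exp z)

def fold (z : ℂ) : ℂ := ⟨z.re, |z.im|⟩

def Ie : Set ℂ := {z | Tendsto (fun n : ℕ => ‖f^[n] z‖) atTop atTop}

def Ip : Set ℂ := {z | z ∈ Ie ∧ 0 ≤ z.im}

def D : Set ℂ := {z | 0 ≤ z.im ∧ z ≠ 0}

lemma P_conj (w : ℂ) : P (conj w) = conj (P w) := by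
  simp [P, map_ofNat]

lemma f_conj (z : ℂ) : f (conj z) = conj (f z) := by
  simp [f, exp_conj, P_conj]

lemma fold_re (z : ℂ) : (fold z).re = z.re := rfl
lemma fold_im (z : ℂ) : (fold z).im = |z.im| := rfl

lemma fold_of_nonneg {z : ℂ} (h : 0 ≤ z.im) : fold z = z :=
  Complex.ext rfl (by simp [fold_im, abs_of_nonneg h])

lemma fold_conj (z : ℂ) : fold (conj z) = fold z :=
  Complex.ext (by simp [fold_re]) (by simp [fold_im])

lemma fold_im_nonneg (z : ℂ) : 0 ≤ (fold z).im := abs_nonneg _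

lemma fold_fold (z : ℂ) : fold (fold z) = fold z := fold_of_nonneg (fold_im_nonneg z)

lemma fold_eq_iff {a b : ℂ} : fold a = fold b ↔ a = b ∨ a = conj b := by
  constructor
  · intro h
    have h1 : a.re = b.re := by simpa [fold_re] using congrArg Complex.re h
    have h2 : |a.im| = |b.im| := by simpa [fold_im] using congrArg Complex.im h
    rcases abs_eq_abs.1 h2 with h3 | h3
    · exact Or.inl (Complex.ext h1 h3)
    · exact Or.inr (Complex.ext (by simpa using h1) (by simpa using h3))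
  · rintro (h | h)
    · rw [h]
    · rw [h, fold_conj]

lemma continuous_fold : Continuous fold := by
  have : fold = fun z : ℂ => (z.re : ℂ) + (|z.im| : ℝ) * I := by
    funext z
    exact Complex.ext (by simp [fold_re]) (by simp [fold_im])
  rw [this]
  fun_prop

lemma norm_of_fold {a b : ℂ} (h : fold a = fold b) : ‖a‖ = ‖b‖ := by
  rcases fold_eq_iff.1 h with h | h <;> simp [h]

lemma norm_fold (a : ℂ) : ‖fold a‖ = ‖a‖ := norm_of_fold (fold_fold a)

lemma fold_P {a b : ℂ} (h : fold a = fold b) : fold (P a) = fold (P b) := by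
  rcases fold_eq_iff.1 h with h | h
  · rw [h]
  · rw [h, P_conj, fold_conj]

lemma fold_f {a b : ℂ} (h : fold a = fold b) : fold (f a) = fold (f b) := by
  rcases fold_eq_iff.1 h with h | h
  · rw [h]
  · rw [h, f_conj, fold_conj]

lemma fold_iter {a b : ℂ} (h : fold a = fold b) (n : ℕ) : fold (f^[n] a) = fold (f^[n] b) := by
  induction n with
  | zero => simpa using h
  | succ n ih => rw [Function.iterate_succ_apply', Function.iterate_succ_apply']; exact fold_f ih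

lemma mem_Ie_of_fold {a b : ℂ} (h : fold a = fold b) (hb : b ∈ Ie) : a ∈ Ie := by
  have : (fun n : ℕ => ‖f^[n] a‖) = fun n : ℕ => ‖f^[n] b‖ :=
    funext fun n => norm_of_fold (fold_iter h n)
  show Tendsto _ _ _
  rw [this]; exact hb

lemma mem_Ie_iter {a : ℂ} (n : ℕ) : f^[n] a ∈ Ie ↔ a ∈ Ie := by
  show Tendsto _ _ _ ↔ Tendsto _ _ _
  have : (fun m : ℕ => ‖f^[m] (f^[n] a)‖) = fun m : ℕ => (fun k : ℕ => ‖f^[k] a‖) (m + n) := by
    funext m; simp [Function.iterate_add_apply]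
  rw [this]
  exact tendsto_add_atTop_iff_nat (f := fun k : ℕ => ‖f^[k] a‖) n

lemma f_zero : f 0 = 0 := by simp [f, P]

lemma zero_not_mem : (0 : ℂ) ∉ Ie := by
  intro h
  have h1 : (fun n : ℕ => ‖f^[n] (0 : ℂ)‖) = fun _ => 0 := by
    funext n
    rw [Function.iterate_fixed f_zero]; simp
  have h2 : Tendsto (fun n : ℕ => ‖f^[n] (0 : ℂ)‖) atTop atTop := h
  rw [h1] at h2
  exact not_tendsto_const_atTop _ _ h2

lemma Ip_sub_D : Ip ⊆ D := fun _ hz => ⟨hz.2, fun h => zero_not_mem (h ▸ hz.1)⟩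

/-! The inverse of the cosine on the closed upper half plane. -/

def al (ξ : ℂ) : ℝ := (‖ξ + 1‖ - ‖ξ - 1‖) / 2
def be (ξ : ℂ) : ℝ := (‖ξ + 1‖ + ‖ξ - 1‖) / 2
def yy (ξ : ℂ) : ℝ := Real.arsinh (Real.sqrt (be ξ ^ 2 - 1))
def Th (ξ : ℂ) : ℂ := (Real.arccos (al ξ) : ℂ) - (yy ξ : ℂ) * I

lemma continuous_Th : Continuous Th := by
  have h1 : Continuous al := by unfold al; fun_prop
  have h2 : Continuous be := by unfold be; fun_prop
  have h3 : Continuous yy := by
    unfold yy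
    exact Real.continuous_arsinh.comp (by fun_prop)
  have h4 : Continuous fun ξ => Real.arccos (al ξ) := Real.continuous_arccos.comp h1
  unfold Th
  fun_prop

lemma cos_Th {ξ : ℂ} (h : 0 ≤ ξ.im) : cos (Th ξ) = ξ := by
  have e2 : ‖(ξ + 1) - (ξ - 1)‖ = 2 := by
    have : (ξ + 1) - (ξ - 1) = 2 := by ring
    rw [this]; simp
  have ha : |al ξ| ≤ 1 := by
    have := abs_norm_sub_norm_le (ξ + 1) (ξ - 1)
    rw [e2] at this
    unfold al
    rw [abs_div]; norm_num; linarith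
  have hb : 1 ≤ be ξ := by
    have := norm_sub_le (ξ + 1) (ξ - 1)
    rw [e2] at this
    unfold be; linarith
  have hp : ‖ξ + 1‖ ^ 2 = (ξ.re + 1) ^ 2 + ξ.im ^ 2 := by
    rw [Complex.sq_norm, Complex.normSq_apply]; simp; ring
  have hm : ‖ξ - 1‖ ^ 2 = (ξ.re - 1) ^ 2 + ξ.im ^ 2 := by
    rw [Complex.sq_norm, Complex.normSq_apply]; simp; ring
  have hab : al ξ * be ξ = ξ.re := by
    unfold al be; nlinarith
  have hsq : (1 - al ξ ^ 2) * (be ξ ^ 2 - 1) = ξ.im ^ 2 := by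
    have : al ξ ^ 2 + be ξ ^ 2 = ξ.re ^ 2 + ξ.im ^ 2 + 1 := by
      unfold al be; nlinarith
    have h2 : al ξ ^ 2 * be ξ ^ 2 = ξ.re ^ 2 := by rw [← hab]; ring
    nlinarith
  have ha1 := abs_le.1 ha
  have hb2 : 0 ≤ be ξ ^ 2 - 1 := by nlinarith
  have ha2 : 0 ≤ 1 - al ξ ^ 2 := by nlinarith
  have hcosh : Real.cosh (yy ξ) = be ξ := by
    unfold yy
    rw [Real.cosh_arsinh, Real.sq_sqrt hb2]
    have : 1 + (be ξ ^ 2 - 1) = be ξ ^ 2 := by ring
    rw [this, Real.sqrt_sq (by linarith)]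
  have hsinh : Real.sinh (yy ξ) = Real.sqrt (be ξ ^ 2 - 1) := by
    unfold yy; rw [Real.sinh_arsinh]
  have hre : (Th ξ).re = Real.arccos (al ξ) := by simp [Th]
  have him : (Th ξ).im = -yy ξ := by simp [Th]
  rw [Complex.cos_eq, hre, him]
  have hprod : Real.sqrt (1 - al ξ ^ 2) * Real.sqrt (be ξ ^ 2 - 1) = ξ.im := by
    rw [← Real.sqrt_mul ha2, hsq, Real.sqrt_sq h]
  rw [← ofReal_cos, ← ofReal_sin, ← ofReal_cosh, ← ofReal_sinh, Real.cosh_neg, Real.sinh_neg,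
    hcosh, hsinh, Real.cos_arccos ha1.1 ha1.2, Real.sin_arccos]
  apply Complex.ext
  · simp [hab]
  · simp [hprod]

lemma Th_one : Th 1 = 0 := by
  have h1 : al 1 = 1 := by
    unfold al
    have : (1 : ℂ) + 1 = 2 := by norm_num
    rw [this]; simp
  have h2 : be 1 = 1 := by
    unfold be
    have : (1 : ℂ) + 1 = 2 := by norm_num
    rw [this]; simp
  simp [Th, yy, h1, h2]

lemma Th_neg {x : ℝ} (hx : x ≤ -1) : Th (x : ℂ) = (π : ℂ) - (yy x : ℂ) * I := by
  have h1 : al x = -1 := by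
    unfold al
    have e1 : (x : ℂ) + 1 = ((x + 1 : ℝ) : ℂ) := by push_cast; ring
    have e2 : (x : ℂ) - 1 = ((x - 1 : ℝ) : ℂ) := by push_cast; ring
    rw [e1, e2, Complex.norm_real, Complex.norm_real, Real.norm_eq_abs, Real.norm_eq_abs,
      abs_of_nonpos (by linarith), abs_of_nonpos (by linarith)]
    ring
  simp [Th, h1]

/-! The inverse branches. -/

def X (j : ℤ) (ζ : ℂ) : ℂ := cos ((Th (ζ / 2 - 1) + 2 * π * j) / 3)
def W (j : ℤ) (ζ : ℂ) : ℂ := fold (2 / 3 * (X j ζ + 1))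
def G (j k : ℤ) (ζ : ℂ) : ℂ := fold (log (W j ζ) + k * (2 * π * I))

lemma xi_im {ζ : ℂ} (h : 0 ≤ ζ.im) : 0 ≤ (ζ / 2 - 1).im := by
  simp; positivity

lemma P_X (j : ℤ) {ζ : ℂ} (h : 0 ≤ ζ.im) : P (2 / 3 * (X j ζ + 1)) = ζ := by
  have h1 := Complex.cos_three_mul ((Th (ζ / 2 - 1) + 2 * π * j) / 3)
  have h2 : 3 * ((Th (ζ / 2 - 1) + 2 * π * j) / 3) = Th (ζ / 2 - 1) + j * (2 * π) := by ring
  rw [h2, Complex.cos_add_int_mul_two_pi, cos_Th (xi_im h)] at h1
  unfold P X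
  linear_combination (-2 : ℂ) * h1

lemma fold_P_W (j : ℤ) {ζ : ℂ} (h : 0 ≤ ζ.im) : fold (P (W j ζ)) = ζ := by
  unfold W
  rw [fold_P (fold_fold _), P_X j h, fold_of_nonneg h]

lemma W_mem (j : ℤ) {ζ : ℂ} (h : ζ ∈ D) : W j ζ ∈ D := by
  refine ⟨fold_im_nonneg _, fun h0 => h.2 ?_⟩
  have := fold_P_W j h.1
  rw [h0] at this
  rw [← this]
  exact Complex.ext (by simp [P, fold_re]) (by simp [P, fold_im])

lemma continuous_W (j : ℤ) : Continuous (W j) := by
  have h := continuous_Th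
  have : Continuous (X j) := by
    unfold X
    have h2 : Continuous fun ζ : ℂ => Th (ζ / 2 - 1) := h.comp (by fun_prop)
    fun_prop
  unfold W
  exact continuous_fold.comp (by fun_prop)

lemma log_contOn : ContinuousOn log D := by
  intro w hw
  by_cases h : w ∈ slitPlane
  · exact (continuousAt_clog h).continuousWithinAt
  · rw [mem_slitPlane_iff] at h
    push Not at h
    have hre : w.re < 0 := by
      rcases lt_or_eq_of_le h.1 with h1 | h1
      · exact h1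
      · exact absurd (Complex.ext h1 h.2) hw.2
    exact (continuousWithinAt_log_of_re_neg_of_im_zero hre h.2).mono fun z hz => hz.1

structure Br (g : ℂ → ℂ) (κ : ℕ) : Prop where
  cont : ContinuousOn g D
  inv : ∀ ζ ∈ D, fold (f (g ζ)) = ζ
  im0 : ∀ ζ ∈ D, 0 ≤ (g ζ).im
  im1 : ∀ ζ ∈ D, |(g ζ).im - 2 * π * κ| ≤ π

lemma exp_log_add {w : ℂ} (hw : w ≠ 0) (k : ℤ) : exp (log w + k * (2 * π * I)) = w := by
  rw [Complex.exp_add, Complex.exp_log hw, Complex.exp_int_mul_two_pi_mul_I, mul_one]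

lemma br_G (j k : ℤ) : Br (G j k) k.natAbs where
  cont := by
    unfold G
    refine continuous_fold.comp_continuousOn (ContinuousOn.add ?_ continuousOn_const)
    exact log_contOn.comp (continuous_W j).continuousOn fun ζ h => W_mem j h
  inv := by
    intro ζ h
    unfold G
    rw [fold_f (fold_fold _)]
    unfold f
    rw [exp_log_add (W_mem j h).2, fold_P_W j h.1]
  im0 := fun ζ _ => fold_im_nonneg _
  im1 := by
    intro ζ h
    unfold G
    rw [fold_im]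
    have e1 : (log (W j ζ) + k * (2 * π * I)).im = arg (W j ζ) + 2 * π * k := by
      simp [Complex.log_im]; ring
    have e2 : 2 * π * (k.natAbs : ℝ) = |2 * π * k| := by
      rw [abs_mul, abs_of_pos (by positivity : (0 : ℝ) < 2 * π), Nat.cast_natAbs]
      simp
    rw [e1, e2]
    refine (abs_abs_sub_abs_le_abs_sub _ _).trans ?_
    simpa using Complex.abs_arg_le_pi _

lemma X_per (j m : ℤ) (ζ : ℂ) : X (j + 3 * m) ζ = X j ζ := by
  unfold X
  have : (Th (ζ / 2 - 1) + 2 * π * ((j + 3 * m : ℤ) : ℂ)) / 3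
      = (Th (ζ / 2 - 1) + 2 * π * j) / 3 + m * (2 * π) := by push_cast; ring
  rw [this, Complex.cos_add_int_mul_two_pi]

lemma G_per (j m k : ℤ) : G (j + 3 * m) k = G j k := by
  funext ζ
  unfold G W
  rw [X_per]

lemma root_of {x ζ : ℂ} (h : 0 ≤ ζ.im) (hx : P (2 / 3 * (x + 1)) = ζ) : ∃ j : ℤ, x = X j ζ := by
  obtain ⟨θ, rfl⟩ := Complex.cos_surjective x
  have h1 := Complex.cos_three_mul θ
  have h2 : cos (Th (ζ / 2 - 1)) = cos (3 * θ) := by
    rw [cos_Th (xi_im h), h1, ← hx]; unfold P; ring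
  obtain ⟨k, hk | hk⟩ := Complex.cos_eq_cos_iff.1 h2
  · refine ⟨k, ?_⟩
    unfold X
    congr 1
    linear_combination (1 / 3 : ℂ) * hk
  · refine ⟨-k, ?_⟩
    unfold X
    rw [← Complex.cos_neg]
    congr 1
    push_cast
    linear_combination (-1 / 3 : ℂ) * hk

lemma exists_G {z : ℂ} (hz : 0 ≤ z.im) (h0 : fold (f z) ∈ D) :
    ∃ j k : ℤ, G j k (fold (f z)) = z := by
  set ζ := fold (f z) with hζ
  have key : ∃ j : ℤ, fold (exp z) = W j ζ := by
    have : f z = ζ ∨ f z = conj ζ := fold_eq_iff.1 (fold_fold _).symm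
    rcases this with h | h
    · obtain ⟨j, hj⟩ := root_of (x := 3 / 2 * exp z - 1) h0.1 (by
        rw [← h]; unfold f; congr 1; ring)
      refine ⟨j, ?_⟩
      unfold W; rw [← hj]; congr 1; ring
    · obtain ⟨j, hj⟩ := root_of (x := 3 / 2 * conj (exp z) - 1) h0.1 (by
        have h2 : ζ = conj (f z) := by rw [h]; simp
        rw [h2]; unfold f; rw [← P_conj]; congr 1; ring)
      refine ⟨j, ?_⟩
      unfold W; rw [← hj, ← fold_conj]; congr 1; ring
  obtain ⟨j, hj⟩ := key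
  have hW := W_mem j h0
  have hW2 : fold (exp z) = fold (W j ζ) := by rw [fold_of_nonneg hW.1]; exact hj
  rcases fold_eq_iff.1 hW2 with h | h
  · rw [← Complex.exp_log hW.2] at h
    obtain ⟨k, hk⟩ := Complex.exp_eq_exp_iff_exists_int.1 h
    refine ⟨j, k, ?_⟩
    unfold G; rw [← hk, fold_of_nonneg hz]
  · have h3 : exp (conj z) = W j ζ := by rw [exp_conj, h]; simp
    rw [← Complex.exp_log hW.2] at h3
    obtain ⟨k, hk⟩ := Complex.exp_eq_exp_iff_exists_int.1 h3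
    refine ⟨j, k, ?_⟩
    unfold G; rw [← hk, fold_conj, fold_of_nonneg hz]

/-! Special values. -/

def cc : ℝ := Real.log (1 / 3)
def b0 : ℝ := Real.log (4 / 3)

lemma cc_neg : cc < 0 := Real.log_neg (by norm_num) (by norm_num)
lemma b0_pos : 0 < b0 := Real.log_pos (by norm_num)
lemma exp_b0 : Real.exp b0 = 4 / 3 := Real.exp_log (by norm_num)

lemma fold_real (x : ℝ) : fold (x : ℂ) = x := fold_of_nonneg (by simp)

lemma xi_four : (4 : ℂ) / 2 - 1 = 1 := by norm_num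

lemma W0_four : W 0 4 = ((4 / 3 : ℝ) : ℂ) := by
  unfold W X
  rw [xi_four, Th_one]
  have : (2 : ℂ) / 3 * (cos ((0 + 2 * π * ((0 : ℤ) : ℂ)) / 3) + 1) = ((4 / 3 : ℝ) : ℂ) := by
    simp; norm_num
  rw [this, fold_real]

lemma cos_two_pi_div_three' : cos (2 * (π : ℂ) / 3) = -1 / 2 := by
  have h : Real.cos (2 * π / 3) = -1 / 2 := by
    have : 2 * π / 3 = π - π / 3 := by ring
    rw [this, Real.cos_pi_sub, Real.cos_pi_div_three]; ring
  have h2 : (2 * (π : ℂ) / 3) = ((2 * π / 3 : ℝ) : ℂ) := by push_cast; ring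
  rw [h2, ← ofReal_cos, h]; push_cast; ring

lemma W1_four : W 1 4 = ((1 / 3 : ℝ) : ℂ) := by
  unfold W X
  rw [xi_four, Th_one]
  have e : (0 + 2 * (π : ℂ) * ((1 : ℤ) : ℂ)) / 3 = 2 * π / 3 := by push_cast; ring
  rw [e, cos_two_pi_div_three']
  have : (2 : ℂ) / 3 * (-1 / 2 + 1) = ((1 / 3 : ℝ) : ℂ) := by push_cast; norm_num
  rw [this, fold_real]

lemma W2_four : W (-1) 4 = ((1 / 3 : ℝ) : ℂ) := by
  unfold W X
  rw [xi_four, Th_one]
  have e : (0 + 2 * (π : ℂ) * ((-1 : ℤ) : ℂ)) / 3 = -(2 * π / 3) := by push_cast; ring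
  rw [e, Complex.cos_neg, cos_two_pi_div_three']
  have : (2 : ℂ) / 3 * (-1 / 2 + 1) = ((1 / 3 : ℝ) : ℂ) := by push_cast; norm_num
  rw [this, fold_real]

lemma G12_four (k : ℤ) : G 1 k 4 = G (-1) k 4 := by
  unfold G; rw [W1_four, W2_four]

lemma G0_four (k : ℤ) : G 0 k 4 = (b0 : ℂ) + (2 * π * (k.natAbs : ℕ) : ℝ) * I := by
  unfold G
  rw [W0_four, ← Complex.ofReal_log (by norm_num)]
  apply Complex.ext
  · simp [fold_re, b0]
  · rw [fold_im]
    have e1 : (((Real.log (4 / 3) : ℝ) : ℂ) + k * (2 * π * I)).im = 2 * π * k := by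
      simp; ring
    rw [e1, abs_mul, abs_of_pos (by positivity : (0 : ℝ) < 2 * π)]
    simp

lemma G1_four : G 1 0 4 = (cc : ℂ) := by
  unfold G
  rw [W1_four, ← Complex.ofReal_log (by norm_num)]
  simp only [Int.cast_zero, zero_mul, add_zero]
  exact fold_real _

lemma G2_four : G (-1) 0 4 = (cc : ℂ) := by rw [← G12_four, G1_four]

lemma Th_cc : ∃ y : ℝ, Th ((cc : ℂ) / 2 - 1) = (π : ℂ) - (y : ℂ) * I := by
  have e : (cc : ℂ) / 2 - 1 = ((cc / 2 - 1 : ℝ) : ℂ) := by push_cast; ring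
  exact ⟨_, by rw [e, Th_neg (by linarith [cc_neg])]⟩

lemma G02_cc (k : ℤ) : G 0 k cc = G (-1) k cc := by
  obtain ⟨y, hy⟩ := Th_cc
  have : W 0 cc = W (-1) cc := by
    unfold W X
    rw [hy, ← fold_conj]
    congr 1
    have e : ((π : ℂ) - y * I + 2 * π * ((-1 : ℤ) : ℂ)) / 3
        = -(conj (((π : ℂ) - y * I + 2 * π * ((0 : ℤ) : ℂ)) / 3)) := by
      simp [map_ofNat]; ring
    rw [e, Complex.cos_neg, Complex.cos_conj]
    simp [map_ofNat]
  unfold G; rw [this]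

lemma cc_mem_D : (cc : ℂ) ∈ D := ⟨by simp, by exact_mod_cast cc_neg.ne⟩

lemma G1_cc (k : ℤ) : G 1 k cc = G 1 (-k - 1) cc := by
  obtain ⟨y, hy⟩ := Th_cc
  have h1 : W 1 cc = ((2 / 3 * (1 - Real.cosh (y / 3)) : ℝ) : ℂ) := by
    unfold W X
    rw [hy]
    have e : ((π : ℂ) - y * I + 2 * π * ((1 : ℤ) : ℂ)) / 3 = π - ((y / 3 : ℝ) : ℂ) * I := by
      push_cast; ring
    rw [e, Complex.cos_pi_sub, Complex.cos_mul_I, ← ofReal_cosh,
      ← fold_real (2 / 3 * (1 - Real.cosh (y / 3)))]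
    congr 1; push_cast; ring
  have h2 : 2 / 3 * (1 - Real.cosh (y / 3)) < 0 := by
    have h3 := Real.one_le_cosh (y / 3)
    have h4 := (W_mem 1 cc_mem_D).2
    rw [h1] at h4
    have h5 : 2 / 3 * (1 - Real.cosh (y / 3)) ≠ 0 := by exact_mod_cast h4
    rcases lt_or_eq_of_le (show 2 / 3 * (1 - Real.cosh (y / 3)) ≤ 0 by linarith) with h | h
    · exact h
    · exact absurd h h5
  have h3 : (log (W 1 cc)).im = π := by
    rw [Complex.log_im, h1]; exact Complex.arg_ofReal_of_neg h2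
  unfold G
  apply Complex.ext
  · simp [fold_re]
  · rw [fold_im, fold_im]
    simp [h3]
    rw [← abs_neg]; congr 1; ring

end

end Pool.Agent.H633Z.Esc
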