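import Pool.Agent.H633Z.EscA

set_option autoImplicit false
open Filter Complex Set Topology
open scoped ComplexConjugate Real

namespace Pool.Agent.H633Z.Esc

noncomputable section

def lo (x : ℝ) : ℝ := 27 * Real.exp x * (Real.exp x - 1) ^ 2
def hi (x : ℝ) : ℝ := 27 * Real.exp x * (Real.exp x + 1) ^ 2

lemma norm_f (z : ℂ) : ‖f z‖ = 27 * Real.exp z.re * ‖exp z - 1‖ ^ 2 := by
  unfold f P
  simp [Complex.norm_exp]

lemma f_le_hi (z : ℂ) : ‖f z‖ ≤ hi z.re := by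
  rw [norm_f]; unfold hi
  have h : ‖exp z - 1‖ ≤ Real.exp z.re + 1 := by
    simpa [Complex.norm_exp] using norm_sub_le (exp z) 1
  gcongr

lemma lo_le_f {z : ℂ} (hz : 0 ≤ z.re) : lo z.re ≤ ‖f z‖ := by
  rw [norm_f]; unfold lo
  have h : Real.exp z.re - 1 ≤ ‖exp z - 1‖ := by
    simpa [Complex.norm_exp] using norm_sub_norm_le (exp z) 1
  have h1 : 0 ≤ Real.exp z.re - 1 := by linarith [Real.one_le_exp hz]
  gcongr

lemma hi_mono {x y : ℝ} (h : x ≤ y) : hi x ≤ hi y := by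
  unfold hi
  gcongr

lemma lo_mono {x y : ℝ} (hx : 0 ≤ x) (h : x ≤ y) : lo x ≤ lo y := by
  unfold lo
  have h1 : 0 ≤ Real.exp x - 1 := by linarith [Real.one_le_exp hx]
  gcongr

lemma hi_lt_lo {s : ℝ} (hs : 1 ≤ s) : 2 * hi s < lo (s + 1) := by
  unfold hi lo
  rw [Real.exp_add]
  have he : 2 < Real.exp 1 := by linarith [Real.add_one_lt_exp (show (1 : ℝ) ≠ 0 by norm_num)]
  have hE : 2 ≤ Real.exp s := by linarith [Real.add_one_le_exp s]
  set E := Real.exp s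
  set e := Real.exp 1
  have h1 : E + 1 ≤ E * e - 1 := by nlinarith
  have h2 : (E + 1) ^ 2 ≤ (E * e - 1) ^ 2 := by gcongr
  have h3 : 0 < (E + 1) ^ 2 := by positivity
  have h4 : 2 * E < E * e := by nlinarith
  calc 2 * (27 * E * (E + 1) ^ 2) = 27 * (2 * E) * (E + 1) ^ 2 := by ring
    _ < 27 * (E * e) * (E + 1) ^ 2 := by gcongr
    _ ≤ 27 * (E * e) * (E * e - 1) ^ 2 := by gcongr

lemma re_close {z w : ℂ} (hz : 2 ≤ z.re) (h1 : ‖f w‖ ≤ 2 * ‖f z‖) (h2 : ‖f z‖ ≤ 2 * ‖f w‖) :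
    |w.re - z.re| ≤ 1 := by
  rw [abs_le]
  constructor
  · by_contra h
    push Not at h
    have a1 := f_le_hi w
    have a2 : hi w.re ≤ hi (z.re - 1) := hi_mono (by linarith)
    have a3 := hi_lt_lo (s := z.re - 1) (by linarith)
    have a4 := lo_le_f (z := z) (by linarith)
    rw [sub_add_cancel] at a3
    linarith
  · by_contra h
    push Not at h
    have a1 := f_le_hi z
    have a2 : lo (z.re + 1) ≤ lo w.re := lo_mono (by linarith) (by linarith)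
    have a3 := hi_lt_lo (s := z.re) (by linarith)
    have a4 := lo_le_f (z := w) (by linarith)
    linarith

def Box (x : ℝ) (κ : ℕ) : Set ℂ := {z | |z.re - x| ≤ 1 ∧ 0 ≤ z.im ∧ |z.im - 2 * π * κ| ≤ π}

lemma box_dist {x : ℝ} {κ : ℕ} {z w : ℂ} (hz : z ∈ Box x κ) (hw : w ∈ Box x κ) : ‖z - w‖ ≤ 10 := by
  have h := Complex.norm_le_abs_re_add_abs_im (z - w)
  obtain ⟨a1, -, a3⟩ := hz
  obtain ⟨b1, -, b3⟩ := hw
  rw [abs_le] at a1 a3 b1 b3
  have hp := Real.pi_le_four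
  have c1 : |(z - w).re| ≤ 2 := by rw [abs_le]; simp; constructor <;> linarith
  have c2 : |(z - w).im| ≤ 8 := by rw [abs_le]; simp; constructor <;> linarith
  linarith

lemma box_convex (x : ℝ) (κ : ℕ) : Convex ℝ (Box x κ) := by
  have : Box x κ = ({z : ℂ | x - 1 ≤ z.re} ∩ {z : ℂ | z.re ≤ x + 1}) ∩ ({z : ℂ | 0 ≤ z.im} ∩
      ({z : ℂ | 2 * π * κ - π ≤ z.im} ∩ {z : ℂ | z.im ≤ 2 * π * κ + π})) := by
    ext z
    simp only [Box, mem_ofPred_eq, mem_inter_iff, abs_le]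
    constructor
    · rintro ⟨⟨a, b⟩, c, d, e⟩
      exact ⟨⟨by linarith, by linarith⟩, c, by linarith, by linarith⟩
    · rintro ⟨⟨a, b⟩, c, d, e⟩
      exact ⟨⟨by linarith, by linarith⟩, c, by linarith, by linarith⟩
  rw [this]
  exact ((convex_halfSpace_re_ge _).inter (convex_halfSpace_re_le _)).inter
    ((convex_halfSpace_im_ge _).inter ((convex_halfSpace_im_ge _).inter (convex_halfSpace_im_le _)))

lemma box_compact (x : ℝ) (κ : ℕ) : IsCompact (Box x κ) := by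
  apply Metric.isCompact_of_isClosed_isBounded
  · have h1 : IsClosed {z : ℂ | |z.re - x| ≤ 1} := isClosed_le (by fun_prop) (by fun_prop)
    have h2 : IsClosed {z : ℂ | 0 ≤ z.im} := isClosed_le (by fun_prop) (by fun_prop)
    have h3 : IsClosed {z : ℂ | |z.im - 2 * π * κ| ≤ π} := isClosed_le (by fun_prop) (by fun_prop)
    exact h1.inter (h2.inter h3)
  · rw [Metric.isBounded_iff]
    exact ⟨10, fun z hz w hw => by rw [dist_eq_norm]; exact box_dist hz hw⟩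

lemma box_sub_D {x : ℝ} (hx : 2 ≤ x) (κ : ℕ) : Box x κ ⊆ D := by
  intro z hz
  refine ⟨hz.2.1, fun h => ?_⟩
  have := hz.1
  rw [h, abs_le] at this
  simp at this
  linarith

lemma Br.mapsD {g : ℂ → ℂ} {κ : ℕ} (h : Br g κ) : MapsTo g D D := by
  intro ζ hζ
  refine ⟨h.im0 ζ hζ, fun h0 => hζ.2 ?_⟩
  have := h.inv ζ hζ
  rw [h0, f_zero] at this
  rw [← this]
  exact fold_of_nonneg (by simp)

lemma Br.mapsI {g : ℂ → ℂ} {κ : ℕ} (h : Br g κ) : MapsTo g Ip Ip := by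
  intro ζ hζ
  have hD := Ip_sub_D hζ
  refine ⟨?_, h.im0 ζ hD⟩
  rw [← mem_Ie_iter 1]
  refine mem_Ie_of_fold (b := ζ) ?_ hζ.1
  rw [fold_of_nonneg hζ.2]
  exact h.inv ζ hD

lemma Br.box {g : ℂ → ℂ} {κ κ' : ℕ} (h : Br g κ) {ρ ρ' : ℂ} (h1 : 20 ≤ ρ.re) (h2 : 20 ≤ ρ'.re)
    (h3 : ρ' ∈ Box ρ'.re κ') (h4 : ‖f ρ‖ = ‖ρ'‖) : MapsTo g (Box ρ'.re κ') (Box ρ.re κ) := by
  intro ζ hζ
  have hD := box_sub_D (by linarith) _ hζ
  refine ⟨?_, h.im0 ζ hD, h.im1 ζ hD⟩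
  have e : ‖f (g ζ)‖ = ‖ζ‖ := by rw [← norm_fold, h.inv ζ hD]
  have d := box_dist hζ h3
  have n1 : 20 ≤ ‖ρ'‖ := h2.trans (Complex.re_le_norm _)
  have n2 := norm_sub_norm_le ζ ρ'
  have n3 := norm_sub_norm_le ρ' ζ
  rw [norm_sub_rev] at n3
  apply re_close (by linarith)
  · rw [e, h4]; linarith
  · rw [e, h4]; linarith

def Ph (g : ℕ → ℂ → ℂ) : ℕ → ℂ → ℂ
  | 0 => id
  | n + 1 => Ph g n ∘ g n

variable {g : ℕ → ℂ → ℂ} {κ : ℕ → ℕ}

lemma Ph_mapsD (hg : ∀ n, Br (g n) (κ n)) (n : ℕ) : MapsTo (Ph g n) D D := by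
  induction n with
  | zero => exact mapsTo_id _
  | succ n ih => exact ih.comp (hg n).mapsD

lemma Ph_mapsI (hg : ∀ n, Br (g n) (κ n)) (n : ℕ) : MapsTo (Ph g n) Ip Ip := by
  induction n with
  | zero => exact mapsTo_id _
  | succ n ih => exact ih.comp (hg n).mapsI

lemma Ph_cont (hg : ∀ n, Br (g n) (κ n)) (n : ℕ) : ContinuousOn (Ph g n) D := by
  induction n with
  | zero => exact continuousOn_id
  | succ n ih => exact ih.comp (hg n).cont (hg n).mapsD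

lemma Ph_inv (hg : ∀ n, Br (g n) (κ n)) (n : ℕ) : ∀ ζ ∈ D, fold (f^[n] (Ph g n ζ)) = ζ := by
  induction n with
  | zero => intro ζ h; exact fold_of_nonneg h.1
  | succ n ih =>
    intro ζ h
    rw [Function.iterate_succ_apply']
    have h1 := ih (g n ζ) ((hg n).mapsD h)
    have h2 : fold (f^[n] (Ph g n (g n ζ))) = fold (g n ζ) := by
      rw [h1, fold_of_nonneg ((hg n).im0 ζ h)]
    exact (fold_f h2).trans ((hg n).inv ζ h)

lemma nested {col : ℂ → Bool} (hc : ContinuousOn col Ip) (Y : ℕ → Set ℂ) (hY : ∀ n, IsCompact (Y n))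
    (hY2 : ∀ n, IsPreconnected (Y n)) (hY3 : Antitone Y) (hY4 : ⋂ n, Y n ⊆ Ip) :
    ∃ n, ∀ x ∈ Y n ∩ Ip, ∀ y ∈ Y n ∩ Ip, col x = col y := by
  obtain ⟨U0, hU0, hU⟩ := continuousOn_iff'.1 hc {true} (isOpen_discrete _)
  obtain ⟨V0, hV0, hV⟩ := continuousOn_iff'.1 hc {false} (isOpen_discrete _)
  have hU' : ∀ x ∈ Ip, x ∈ U0 ↔ col x = true := by
    intro x hx
    have := Set.ext_iff.1 hU x
    simp only [mem_inter_iff, mem_preimage, mem_singleton_iff, hx, and_true] at this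
    exact this.symm
  have hV' : ∀ x ∈ Ip, x ∈ V0 ↔ col x = false := by
    intro x hx
    have := Set.ext_iff.1 hV x
    simp only [mem_inter_iff, mem_preimage, mem_singleton_iff, hx, and_true] at this
    exact this.symm
  have hK : IsCompact (⋂ n, Y n) :=
    (hY 0).of_isClosed_subset (isClosed_iInter fun n => (hY n).isClosed) (iInter_subset _ 0)
  have hA : IsCompact ((⋂ n, Y n) \ V0) := hK.diff hV0
  have hB : IsCompact ((⋂ n, Y n) \ U0) := hK.diff hU0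
  have hd : Disjoint ((⋂ n, Y n) \ V0) ((⋂ n, Y n) \ U0) := by
    rw [Set.disjoint_left]
    rintro x ⟨hx, h1⟩ ⟨-, h2⟩
    have hxI := hY4 hx
    rw [hV' x hxI] at h1
    rw [hU' x hxI] at h2
    cases hcx : col x <;> simp_all
  obtain ⟨U1, V1, hU1, hV1, hAU, hBV, hUV⟩ := SeparatedNhds.of_isCompact_isCompact hA hB hd
  have hO : IsOpen ((U1 ∩ U0) ∪ (V1 ∩ V0)) := (hU1.inter hU0).union (hV1.inter hV0)
  obtain ⟨n, hn⟩ := exists_subset_nhds_of_isCompact' (V := Y) (U := (U1 ∩ U0) ∪ (V1 ∩ V0))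
    (fun a b => ⟨max a b, hY3 (le_max_left a b), hY3 (le_max_right a b)⟩) hY (fun n => (hY n).isClosed) (by
      intro x hx
      apply hO.mem_nhds
      have hxI := hY4 hx
      cases hcx : col x
      · right
        have h1 : x ∉ U0 := by rw [hU' x hxI, hcx]; simp
        exact ⟨hBV ⟨hx, h1⟩, (hV' x hxI).2 hcx⟩
      · left
        have h1 : x ∉ V0 := by rw [hV' x hxI, hcx]; simp
        exact ⟨hAU ⟨hx, h1⟩, (hU' x hxI).2 hcx⟩)
  refine ⟨n, ?_⟩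
  rcases (hY2 n).subset_or_subset (hU1.inter hU0) (hV1.inter hV0)
    (hUV.mono inter_subset_left inter_subset_left) hn with h | h
  · intro x hx y hy
    rw [(hU' x hx.2).1 (h hx.1).2, (hU' y hy.2).1 (h hy.1).2]
  · intro x hx y hy
    rw [(hV' x hx.2).1 (h hx.1).2, (hV' y hy.2).1 (h hy.1).2]

lemma shadow {col : ℂ → Bool} (hc : ContinuousOn col Ip) (hg : ∀ n, Br (g n) (κ n)) (ρ : ℕ → ℂ)
    (N : ℕ) (h1 : ∀ n, N ≤ n → 20 ≤ (ρ n).re) (h2 : ∀ n, N ≤ n → ρ n ∈ Box (ρ n).re (κ n))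
    (h3 : ∀ n, N ≤ n → ‖f (ρ n)‖ = ‖ρ (n + 1)‖) (h4 : Tendsto (fun n => ‖ρ n‖) atTop atTop) :
    ∃ n, N ≤ n ∧ ∀ x ∈ Box (ρ n).re (κ n) ∩ Ip, ∀ y ∈ Box (ρ n).re (κ n) ∩ Ip,
      col (Ph g n x) = col (Ph g n y) := by
  have hD : ∀ m, Box (ρ (m + N)).re (κ (m + N)) ⊆ D := fun m =>
    box_sub_D (by linarith [h1 (m + N) (by omega)]) _
  obtain ⟨m, hm⟩ := nested hc (fun m => Ph g (m + N) '' Box (ρ (m + N)).re (κ (m + N)))
    (fun m => (box_compact _ _).image_of_continuousOn ((Ph_cont hg _).mono (hD m)))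
    (fun m => (box_convex _ _).isPreconnected.image _ ((Ph_cont hg _).mono (hD m)))
    (by
      apply antitone_nat_of_succ_le
      intro m
      have e : m + 1 + N = (m + N) + 1 := by ring
      rintro _ ⟨x, hx, rfl⟩
      rw [e] at hx ⊢
      exact ⟨g (m + N) x, (hg (m + N)).box (h1 _ (by omega)) (h1 _ (by omega)) (h2 _ (by omega))
        (h3 _ (by omega)) hx, rfl⟩)
    (by
      intro y hy
      rw [mem_iInter] at hy
      constructor
      · show Tendsto _ _ _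
        rw [← tendsto_add_atTop_iff_nat N]
        have h5 : Tendsto (fun m => ‖ρ (m + N)‖ + (-10)) atTop atTop :=
          tendsto_atTop_add_const_right _ _ ((tendsto_add_atTop_iff_nat (f := fun n => ‖ρ n‖) N).2 h4)
        refine tendsto_atTop_mono (fun m => ?_) h5
        obtain ⟨x, hx, rfl⟩ := hy m
        have e := Ph_inv hg (m + N) x (hD m hx)
        rw [← norm_fold (f^[m + N] _), e]
        have d := box_dist (h2 (m + N) (by omega)) hx
        linarith [norm_sub_norm_le (ρ (m + N)) x]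
      · obtain ⟨x, hx, rfl⟩ := hy 0
        exact (Ph_mapsD hg _ (hD 0 hx)).1)
  refine ⟨m + N, by omega, fun x hx y hy => hm _ ⟨⟨x, hx.1, rfl⟩, Ph_mapsI hg _ hx.2⟩ _
    ⟨⟨y, hy.1, rfl⟩, Ph_mapsI hg _ hy.2⟩⟩

end

end Pool.Agent.H633Z.Esc
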