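import Pool.Agent.H633Z.EscB

set_option autoImplicit false
open Filter Complex Set Topology
open scoped ComplexConjugate Real

namespace Pool.Agent.H633Z.Esc

noncomputable section

lemma f_real (x : ℝ) : f (x : ℂ) = (lo x : ℝ) := by
  unfold f P lo
  push_cast
  ring

lemma iter_real (x : ℝ) (n : ℕ) : f^[n] (x : ℂ) = (lo^[n] x : ℝ) := by
  induction n with
  | zero => rfl
  | succ n ih => rw [Function.iterate_succ_apply', Function.iterate_succ_apply', ih, f_real]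

lemma lo_ge {x : ℝ} (hx : b0 ≤ x) : x + 1 ≤ lo x := by
  have h1 : 4 / 3 ≤ Real.exp x := by rw [← exp_b0]; exact Real.exp_le_exp.2 hx
  have h2 := Real.add_one_le_exp x
  have h3 : (1 / 3 : ℝ) ^ 2 ≤ (Real.exp x - 1) ^ 2 := by
    gcongr; linarith
  have h4 := b0_pos
  unfold lo
  nlinarith

lemma iter_ge {x : ℝ} (hx : b0 ≤ x) (n : ℕ) : x + n ≤ lo^[n] x := by
  induction n with
  | zero => simp
  | succ n ih =>
    rw [Function.iterate_succ_apply']
    have hn : (0 : ℝ) ≤ n := Nat.cast_nonneg n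
    have := lo_ge (x := lo^[n] x) (by linarith)
    push_cast; linarith

lemma real_mem {x : ℝ} (hx : b0 ≤ x) : (x : ℂ) ∈ Ie := by
  show Tendsto _ _ _
  have h5 : Tendsto (fun n : ℕ => x + (n : ℝ)) atTop atTop :=
    tendsto_atTop_add_const_left _ _ tendsto_natCast_atTop_atTop
  refine tendsto_atTop_mono (fun n => ?_) h5
  rw [iter_real, Complex.norm_real]
  exact (iter_ge hx n).trans (le_abs_self _)

def ln (κ : ℕ) (t : ℝ) : ℂ := (t : ℂ) + (2 * π * κ : ℝ) * I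

lemma ln_re (κ : ℕ) (t : ℝ) : (ln κ t).re = t := by simp [ln]
lemma ln_im (κ : ℕ) (t : ℝ) : (ln κ t).im = 2 * π * κ := by simp [ln]
lemma ln_zero (t : ℝ) : ln 0 t = t := by simp [ln]

lemma ln_mem (κ : ℕ) {t : ℝ} (ht : b0 ≤ t) : ln κ t ∈ Ip := by
  refine ⟨?_, by rw [ln_im]; positivity⟩
  rw [← mem_Ie_iter 1]
  have : f^[1] (ln κ t) = f^[1] (t : ℂ) := by
    show f _ = f _
    unfold f ln
    have e : ((2 * π * κ : ℝ) : ℂ) * I = κ * (2 * π * I) := by push_cast; ring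
    rw [e, Complex.exp_add, Complex.exp_nat_mul_two_pi_mul_I, mul_one]
  rw [this, mem_Ie_iter]
  exact real_mem ht

lemma ln_col {col : ℂ → Bool} (hc : ContinuousOn col Ip) (κ : ℕ) {s t : ℝ} (hs : b0 ≤ s)
    (ht : b0 ≤ t) : col (ln κ s) = col (ln κ t) := by
  have h1 : Continuous (ln κ) := by unfold ln; fun_prop
  have h2 : ContinuousOn (col ∘ ln κ) (Ici b0) := hc.comp h1.continuousOn fun x hx => ln_mem κ hx
  exact isPreconnected_Ici.constant h2 hs ht

lemma b0_le : b0 ≤ 4 := by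
  have := Real.add_one_le_exp b0
  rw [exp_b0] at this; linarith

lemma Br.col {g : ℂ → ℂ} {κ : ℕ} (h : Br g κ) {col : ℂ → Bool} (hc : ContinuousOn col Ip) :
    ContinuousOn (col ∘ g) Ip := hc.comp (h.cont.mono Ip_sub_D) h.mapsI

lemma Ph_col {g : ℕ → ℂ → ℂ} {κ : ℕ → ℕ} (hg : ∀ n, Br (g n) (κ n)) {col : ℂ → Bool}
    (hc : ContinuousOn col Ip) (n : ℕ) : ContinuousOn (col ∘ Ph g n) Ip :=
  hc.comp ((Ph_cont hg n).mono Ip_sub_D) (Ph_mapsI hg n)

lemma four_eq : (4 : ℂ) = ln 0 4 := by simp [ln]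

lemma col_G00 {col : ℂ → Bool} (hc : ContinuousOn col Ip) : col (G 0 0 4) = col 4 := by
  rw [G0_four]
  exact (ln_col hc 0 le_rfl b0_le).trans (by rw [← four_eq])

open Classical in
def jn (c : ℂ → Bool) : ℤ := if c (G 0 0 4) ≠ c (G 0 0 cc) then 0 else -1

def cs (c : ℂ → Bool) : ℕ → ℂ → Bool
  | 0 => c
  | n + 1 => cs c n ∘ G (jn (cs c n)) 0

lemma cs_eq (c : ℂ → Bool) (n : ℕ) : cs c n = c ∘ Ph (fun n => G (jn (cs c n)) 0) n := by
  induction n with
  | zero => rfl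
  | succ n ih =>
    show cs c n ∘ _ = c ∘ (Ph _ n ∘ _)
    rw [← Function.comp_assoc, ← ih]

lemma step {c : ℂ → Bool} (hc : ContinuousOn c Ip) (h : c 4 ≠ c cc) :
    c (G (jn c) 0 4) ≠ c (G (jn c) 0 cc) := by
  unfold jn
  split_ifs with h1
  · exact h1
  · push Not at h1
    rw [← G02_cc, ← h1, col_G00 hc, G2_four]
    exact h.symm

/-- The critical value and the critical point always get the same colour. -/
lemma lemma1 {c : ℂ → Bool} (hc : ContinuousOn c Ip) : c 4 = c cc := by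
  by_contra h
  have hg : ∀ n, Br ((fun n => G (jn (cs c n)) 0) n) ((fun _ => 0) n) := fun n => br_G _ 0
  have hcs : ∀ n, ContinuousOn (cs c n) Ip := fun n => by rw [cs_eq]; exact Ph_col hg hc n
  have hbad : ∀ n, cs c n 4 ≠ cs c n cc := by
    intro n
    induction n with
    | zero => exact h
    | succ n ih => exact step (hcs n) ih
  have hb : b0 ≤ 20 := by linarith [b0_le]
  have hr : ∀ n : ℕ, 20 ≤ lo^[n] 20 := fun n => by
    have := iter_ge hb n
    have hn : (0 : ℝ) ≤ n := Nat.cast_nonneg n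
    linarith
  have hbox : ∀ n : ℕ, ((lo^[n] 20 : ℝ) : ℂ) ∈ Box ((lo^[n] 20 : ℝ) : ℂ).re 0 := fun n =>
    ⟨by simp, by simp, by simp [Real.pi_pos.le]⟩
  have hf : ∀ n : ℕ, ‖f ((lo^[n] 20 : ℝ) : ℂ)‖ = ‖((lo^[n + 1] 20 : ℝ) : ℂ)‖ := fun n => by
    rw [f_real, Function.iterate_succ_apply']
  obtain ⟨n, -, hn⟩ := shadow hc hg (fun n => ((lo^[n] 20 : ℝ) : ℂ)) 0
    (fun n _ => by simpa using hr n) (fun n _ => hbox n) (fun n _ => hf n) (by
      have := real_mem hb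
      simpa only [Ie, mem_ofPred_eq, iter_real] using this)
  have hI : ∀ n : ℕ, ((lo^[n] 20 : ℝ) : ℂ) ∈ Ip := fun n => by
    rw [← ln_zero]; exact ln_mem 0 (by linarith [hr n])
  have h1 := hn _ ⟨hbox n, hI n⟩ (G 1 0 ((lo^[n + 1] 20 : ℝ) : ℂ))
    ⟨(br_G 1 0).box (by simpa using hr n) (by simpa using hr (n + 1)) (hbox (n + 1)) (hf n)
      (hbox (n + 1)), (br_G 1 0).mapsI (hI (n + 1))⟩
  have h2 : cs c n ((lo^[n] 20 : ℝ) : ℂ) = cs c n (G 1 0 ((lo^[n + 1] 20 : ℝ) : ℂ)) := by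
    rw [cs_eq]; exact h1
  have h3 : cs c n ((lo^[n] 20 : ℝ) : ℂ) = cs c n 4 := by
    rw [← ln_zero, four_eq]; exact ln_col (hcs n) 0 (by linarith [hr n]) b0_le
  have h4 : cs c n (G 1 0 ((lo^[n + 1] 20 : ℝ) : ℂ)) = cs c n (G 1 0 4) := by
    rw [← ln_zero, four_eq]
    exact ln_col ((br_G 1 0).col (hcs n)) 0 (by linarith [hr (n + 1)]) b0_le
  apply hbad n
  rw [← h3, h2, h4, G1_four]

lemma lemma2a {c : ℂ → Bool} (hc : ContinuousOn c Ip) (k : ℤ) :
    c (G (-1) k 4) = c (G 0 k 4) ∧ c (G 1 k 4) = c (G 0 k 4) := by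
  have h0 : c (G 0 k 4) = c (G 0 k cc) := lemma1 ((br_G 0 k).col hc)
  have h2 : c (G (-1) k 4) = c (G (-1) k cc) := lemma1 ((br_G (-1) k).col hc)
  have h3 : c (G (-1) k 4) = c (G 0 k 4) := by rw [h2, h0, G02_cc]
  exact ⟨h3, by rw [G12_four, h3]⟩

lemma lemma2b {c : ℂ → Bool} (hc : ContinuousOn c Ip) (k : ℤ) :
    c (G 0 (k + 1) 4) = c (G 0 k 4) := by
  have h1 : c (G 1 k 4) = c (G 1 k cc) := lemma1 ((br_G 1 k).col hc)
  have h2 : c (G 1 (-k - 1) 4) = c (G 1 (-k - 1) cc) := lemma1 ((br_G 1 (-k - 1)).col hc)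
  have h3 : G 0 (k + 1) 4 = G 0 (-k - 1) 4 := by
    rw [G0_four, G0_four]
    have : (-k - 1).natAbs = (k + 1).natAbs := by omega
    rw [this]
  rw [h3, ← (lemma2a hc _).2, h2, ← G1_cc, ← h1, (lemma2a hc _).2]

lemma lemma2c {c : ℂ → Bool} (hc : ContinuousOn c Ip) (k : ℤ) : c (G 0 k 4) = c 4 := by
  induction k using Int.induction_on with
  | zero => exact col_G00 hc
  | succ k ih => rw [lemma2b hc, ih]
  | pred k ih =>
    rw [← lemma2b hc, sub_add_cancel, ih]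

lemma lemma2 {c : ℂ → Bool} (hc : ContinuousOn c Ip) (j k : ℤ) : c (G j k 4) = c 4 := by
  obtain ⟨m, h | h | h⟩ : ∃ m : ℤ, j = 0 + 3 * m ∨ j = 1 + 3 * m ∨ j = -1 + 3 * m := by
    refine ⟨(j + 1) / 3, ?_⟩
    omega
  · rw [h, G_per, lemma2c hc]
  · rw [h, G_per, (lemma2a hc k).2, lemma2c hc]
  · rw [h, G_per, (lemma2a hc k).1, lemma2c hc]

lemma lemma3 {c : ℂ → Bool} (hc : ContinuousOn c Ip) {z : ℂ} (hz : z ∈ Ip) : c z = c 4 := by
  set ρ : ℕ → ℂ := fun n => fold (f^[n] z) with hρ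
  have hI : ∀ n, ρ n ∈ Ip := fun n =>
    ⟨mem_Ie_of_fold (fold_fold _) ((mem_Ie_iter n).2 hz.1), fold_im_nonneg _⟩
  have hs : ∀ n, fold (f (ρ n)) = ρ (n + 1) := fun n => by
    show fold (f (fold _)) = fold _
    rw [fold_f (fold_fold _), Function.iterate_succ_apply']
  have hex : ∀ n, ∃ j k : ℤ, G j k (ρ (n + 1)) = ρ n := fun n => by
    have := exists_G (hI n).2 (by rw [hs]; exact Ip_sub_D (hI _))
    rwa [hs] at this
  choose j k hjk using hex
  have hg : ∀ n, Br ((fun n => G (j n) (k n)) n) ((fun n => (k n).natAbs) n) := fun n => br_G _ _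
  have ht : Tendsto (fun n => ‖ρ n‖) atTop atTop := by
    have : (fun n => ‖ρ n‖) = fun n => ‖f^[n] z‖ := funext fun n => norm_fold _
    rw [this]; exact hz.1
  obtain ⟨N, hN⟩ := eventually_atTop.1 (ht.eventually (eventually_gt_atTop (hi 20)))
  have hf : ∀ n, ‖f (ρ n)‖ = ‖ρ (n + 1)‖ := fun n => by rw [← hs, norm_fold]
  have hre : ∀ n, N ≤ n → 20 ≤ (ρ n).re := fun n hn => by
    by_contra h
    push Not at h
    have a1 := hN (n + 1) (by omega)
    have a2 := f_le_hi (ρ n)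
    have a3 := hi_mono h.le
    rw [hf] at a2
    linarith
  have hbox : ∀ n, ρ n ∈ Box (ρ n).re (k n).natAbs := fun n => by
    refine ⟨by simp, (hI n).2, ?_⟩
    rw [← hjk n]
    exact (br_G _ _).im1 _ (Ip_sub_D (hI _))
  obtain ⟨n, hn, h⟩ := shadow hc hg ρ N hre (fun n _ => hbox n) (fun n _ => hf n) ht
  have hb : b0 ≤ (ρ n).re := by linarith [hre n hn, b0_le]
  have h1 := h _ ⟨hbox n, hI n⟩ (ln (k n).natAbs (ρ n).re)
    ⟨⟨by simp [ln_re], by rw [ln_im]; positivity, by simp [ln_im, Real.pi_pos.le]⟩, ln_mem _ hb⟩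
  have h2 : ∀ m, Ph (fun n => G (j n) (k n)) m (ρ m) = z := by
    intro m
    induction m with
    | zero => exact fold_of_nonneg hz.2
    | succ m ih =>
      show Ph _ m (G (j m) (k m) (ρ (m + 1))) = z
      rw [hjk, ih]
  have h3 : ∀ m, c (Ph (fun n => G (j n) (k n)) m 4) = c 4 := by
    intro m
    induction m with
    | zero => rfl
    | succ m ih => exact (lemma2 (Ph_col hg hc m) (j m) (k m)).trans ih
  have h4 := ln_col (Ph_col hg hc n) (k n).natAbs hb le_rfl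
  have h5 := lemma2c (Ph_col hg hc n) (k n)
  rw [G0_four] at h5
  rw [h2] at h1
  rw [h1, ← h3 n]
  exact h4.trans h5

lemma Ip_preconn : IsPreconnected Ip :=
  isPreconnected_of_forall_constant fun _ hc _ hx _ hy => (lemma3 hc hx).trans (lemma3 hc hy).symm

lemma four_mem : (4 : ℂ) ∈ Ip := by rw [four_eq]; exact ln_mem 0 b0_le

lemma Ie_conn : IsConnected Ie := by
  refine ⟨⟨4, four_mem.1⟩, ?_⟩
  have h : Ie = Ip ∪ conj '' Ip := by
    ext z
    constructor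
    · intro hz
      rcases le_total 0 z.im with h | h
      · exact Or.inl ⟨hz, h⟩
      · exact Or.inr ⟨conj z, ⟨mem_Ie_of_fold (fold_conj z) hz, by simpa using h⟩, by simp⟩
    · rintro (hz | ⟨w, hw, rfl⟩)
      · exact hz.1
      · exact mem_Ie_of_fold (fold_conj w) hw.1
  rw [h]
  exact IsPreconnected.union 4 four_mem ⟨4, four_mem, by simp [map_ofNat]⟩ Ip_preconn
    (Ip_preconn.image _ Complex.continuous_conj.continuousOn)

lemma lo_nonneg (x : ℝ) : 0 ≤ lo x := by unfold lo; positivity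

lemma lo_small {x : ℝ} (h0 : 0 ≤ x) (h1 : x ≤ 1 / 400) : lo x ≤ 1 / 400 := by
  have a := Real.abs_exp_sub_one_le (x := x) (by rw [abs_of_nonneg h0]; linarith)
  rw [abs_of_nonneg h0, abs_le] at a
  have b : 1 ≤ Real.exp x := Real.one_le_exp h0
  have c1 : (Real.exp x - 1) ^ 2 ≤ (1 / 200) ^ 2 := by
    gcongr <;> linarith
  have c2 : Real.exp x ≤ 2 := by linarith
  unfold lo
  calc 27 * Real.exp x * (Real.exp x - 1) ^ 2 ≤ 27 * 2 * (1 / 200) ^ 2 := by gcongr
    _ ≤ 1 / 400 := by norm_num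

lemma lo_left {x : ℝ} (h : x ≤ -20000) : lo x ≤ 1 / 400 := by
  have a := Real.add_one_le_exp (-x)
  have e : Real.exp x * Real.exp (-x) = 1 := by rw [← Real.exp_add]; simp
  have p := Real.exp_pos x
  have b : Real.exp x ≤ 1 / 20000 := by nlinarith
  have c1 : (Real.exp x - 1) ^ 2 ≤ 1 := by nlinarith
  unfold lo
  calc 27 * Real.exp x * (Real.exp x - 1) ^ 2 ≤ 27 * (1 / 20000) * 1 := by gcongr
    _ ≤ 1 / 400 := by norm_num

lemma left_not_mem {x : ℝ} (h : x ≤ -20000) : (x : ℂ) ∉ Ie := by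
  intro hx
  have h1 : ∀ n : ℕ, 0 ≤ lo^[n + 1] x ∧ lo^[n + 1] x ≤ 1 / 400 := by
    intro n
    induction n with
    | zero => exact ⟨lo_nonneg _, lo_left h⟩
    | succ n ih =>
      rw [Function.iterate_succ_apply']
      exact ⟨lo_nonneg _, lo_small ih.1 ih.2⟩
  have h2 : Tendsto (fun n : ℕ => ‖f^[n] (x : ℂ)‖) atTop atTop := hx
  obtain ⟨N, hN⟩ := eventually_atTop.1 (h2.eventually (eventually_gt_atTop 1))
  have h3 := hN (N + 1) (by omega)
  rw [iter_real, Complex.norm_real, Real.norm_eq_abs, abs_of_nonneg (h1 N).1] at h3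
  linarith [(h1 N).2]

lemma not_poly : ¬ ∃ p : Polynomial ℂ, ∀ z : ℂ, f z = p.eval z := by
  rintro ⟨p, hp⟩
  have h0 : p = 0 := by
    apply Polynomial.eq_zero_of_infinite_isRoot
    have hinj : Function.Injective fun n : ℕ => (n : ℂ) * (2 * π * I) := by
      intro a b hab
      have := mul_right_cancel₀ Complex.two_pi_I_ne_zero hab
      exact_mod_cast this
    refine Set.infinite_of_injective_forall_mem hinj fun n => ?_
    show p.eval _ = 0
    rw [← hp]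
    unfold f P
    rw [Complex.exp_nat_mul_two_pi_mul_I]; simp
  have h1 := hp (b0 : ℂ)
  rw [h0, f_real] at h1
  have h2 := lo_ge (le_refl b0)
  have h3 : lo b0 = 0 := by simpa using h1
  linarith [b0_pos]

theorem main :
    ∃ f : ℂ → ℂ, Differentiable ℂ f ∧
      (¬ ∃ p : Polynomial ℂ, ∀ z : ℂ, f z = p.eval z) ∧
      IsConnected {z : ℂ | Tendsto (fun n : ℕ => f^[n] z) atTop (cocompact ℂ)} ∧
      ∃ K : Set ℂ, IsClosed K ∧ IsConnected K ∧ ¬ Bornology.IsBounded K ∧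
        K ⊆ {z : ℂ | Tendsto (fun n : ℕ => f^[n] z) atTop (cocompact ℂ)}ᶜ := by
  have hI : {z : ℂ | Tendsto (fun n : ℕ => f^[n] z) atTop (cocompact ℂ)} = Ie := by
    ext z
    simp only [Ie, mem_ofPred_eq]
    rw [tendsto_norm_atTop_iff_cobounded, Metric.cobounded_eq_cocompact]
  refine ⟨f, by unfold f P; fun_prop, not_poly, by rw [hI]; exact Ie_conn,
    (fun x : ℝ => (x : ℂ)) '' Iic (-20000), ?_, ?_, ?_, ?_⟩
  · exact Complex.isUniformEmbedding_ofReal.isClosedEmbedding.isClosedMap _ isClosed_Iic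
  · exact isConnected_Iic.image _ Complex.continuous_ofReal.continuousOn
  · intro hb
    obtain ⟨C, hC⟩ := hb.exists_norm_le
    have := hC ((-(|C| + 20000) : ℝ) : ℂ) ⟨_, by simp, rfl⟩
    rw [Complex.norm_real, Real.norm_eq_abs, abs_neg, abs_of_nonneg (by positivity)] at this
    linarith [le_abs_self C]
  · rw [hI]
    rintro _ ⟨x, hx, rfl⟩
    exact left_not_mem hx

end

end Pool.Agent.H633Z.Esc
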