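import Mathlib

set_option autoImplicit false
open Filter Set Topology Finset

namespace Pool.Agent.H633Z.Fast

noncomputable section

def T (n : ℕ) (a r : ℝ) : ℝ := (n + 1) * Real.exp (a * r) + 1

def st : ℕ → ℝ × ℝ × ℝ
  | 0 => (30, 5, 10)
  | n + 1 => ((st n).1 + 2 * (T n (st n).1)^[n + 3] (st n).2.1 + 10, T n (st n).1 (st n).2.1,
      (T n (st n).1)^[n + 3] (st n).2.1)

def a (n : ℕ) : ℝ := (st n).1
def w (n : ℕ) : ℝ := (st n).2.1
def G (n : ℕ) : ℝ := (st n).2.2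
def ka : ℕ → ℝ
  | 0 => 1
  | n + 1 => w n + 2

lemma a_zero : a 0 = 30 := rfl
lemma w_zero : w 0 = 5 := rfl
lemma G_zero : G 0 = 10 := rfl
lemma a_succ (n : ℕ) : a (n + 1) = a n + 2 * G (n + 1) + 10 := rfl
lemma w_succ (n : ℕ) : w (n + 1) = T n (a n) (w n) := rfl
lemma G_succ (n : ℕ) : G (n + 1) = (T n (a n))^[n + 3] (w n) := rfl
lemma ka_succ (n : ℕ) : ka (n + 1) = w n + 2 := rfl

lemma T_ge {n : ℕ} {b r : ℝ} (_hb : 2 ≤ b) (_hr : 1 ≤ r) : b * r + 2 ≤ T n b r := by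
  unfold T
  have h1 := Real.add_one_le_exp (b * r)
  have h2 : (0 : ℝ) ≤ n := Nat.cast_nonneg n
  have h3 := Real.exp_pos (b * r)
  nlinarith

lemma T_ge' {n : ℕ} {b r : ℝ} (hb : 2 ≤ b) (hr : 1 ≤ r) : r + 3 ≤ T n b r := by
  have := T_ge (n := n) hb hr
  nlinarith

lemma T_mono {n : ℕ} {b r s : ℝ} (hb : 0 ≤ b) (h : r ≤ s) : T n b r ≤ T n b s := by
  unfold T
  gcongr

lemma T_iter_ge {n : ℕ} {b r : ℝ} (hb : 2 ≤ b) (hr : 1 ≤ r) (j : ℕ) :
    r + 3 * j ≤ (T n b)^[j] r := by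
  induction j with
  | zero => simp
  | succ j ih =>
    rw [Function.iterate_succ_apply']
    have hj : (0 : ℝ) ≤ j := Nat.cast_nonneg j
    have := T_ge' (n := n) hb (r := (T n b)^[j] r) (by linarith)
    push_cast; linarith

lemma T_iter_mono {n : ℕ} {b r : ℝ} (hb : 2 ≤ b) (hr : 1 ≤ r) {i j : ℕ} (h : i ≤ j) :
    (T n b)^[i] r ≤ (T n b)^[j] r := by
  obtain ⟨d, rfl⟩ := Nat.exists_eq_add_of_le' h
  rw [Function.iterate_add_apply]
  have h1 := T_iter_ge (n := n) hb hr i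
  have hi : (0 : ℝ) ≤ i := Nat.cast_nonneg i
  have h2 := T_iter_ge (n := n) hb (r := (T n b)^[i] r) (by linarith) d
  have hd : (0 : ℝ) ≤ d := Nat.cast_nonneg d
  linarith

lemma basic (n : ℕ) : 5 + n ≤ w n ∧ w n + 4 ≤ G n ∧ 2 * G n + 10 ≤ a n := by
  induction n with
  | zero => simp [a_zero, w_zero, G_zero]; norm_num
  | succ n ih =>
    obtain ⟨h1, h2, h3⟩ := ih
    have hn : (0 : ℝ) ≤ n := Nat.cast_nonneg n
    have hb : 2 ≤ a n := by linarith
    have hw : 1 ≤ w n := by linarith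
    have e1 := T_ge' (n := n) hb hw
    have e2 : G (n + 1) = (T n (a n))^[n + 2] (w (n + 1)) := by
      rw [G_succ, w_succ, ← Function.iterate_succ_apply]
    have e3 := T_iter_ge (n := n) hb (r := w (n + 1)) (by rw [w_succ]; linarith) (n + 2)
    refine ⟨by rw [w_succ]; push_cast; linarith, ?_, by rw [a_succ]; linarith⟩
    rw [e2]; push_cast at e3; linarith

lemma w_ge (n : ℕ) : 5 + n ≤ w n := (basic n).1
lemma w_G (n : ℕ) : w n + 4 ≤ G n := (basic n).2.1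
lemma G_a (n : ℕ) : 2 * G n + 10 ≤ a n := (basic n).2.2
lemma w_five (n : ℕ) : 5 ≤ w n := by
  have := w_ge n
  have hn : (0 : ℝ) ≤ n := Nat.cast_nonneg n
  linarith
lemma a_ge (n : ℕ) : n + 20 ≤ a n := by
  have := w_ge n
  have := w_G n
  have := G_a n
  have hn : (0 : ℝ) ≤ n := Nat.cast_nonneg n
  linarith
lemma a_two (n : ℕ) : 2 ≤ a n := by
  have := a_ge n
  have hn : (0 : ℝ) ≤ n := Nat.cast_nonneg n
  linarith
lemma a_mono : Monotone a := monotone_nat_of_le_succ fun n => by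
  rw [a_succ]; linarith [w_G (n + 1), w_five (n + 1)]
lemma w_step (n : ℕ) : w n + 3 ≤ w (n + 1) := T_ge' (a_two n) (by linarith [w_five n])
lemma w_mono : Monotone w := monotone_nat_of_le_succ fun n => by linarith [w_step n]
lemma ka_step (n : ℕ) : ka n + 3 ≤ ka (n + 1) := by
  cases n with
  | zero => rw [ka_succ, w_zero]; show (1 : ℝ) + 3 ≤ _; norm_num
  | succ n => rw [ka_succ, ka_succ]; linarith [w_step n]
lemma ka_mono : Monotone ka := monotone_nat_of_le_succ fun n => by linarith [ka_step n]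
lemma ka_one (n : ℕ) : 1 ≤ ka n := ka_mono (Nat.zero_le n)
lemma ka_ge (n : ℕ) : n ≤ ka n := by
  induction n with
  | zero => simpa using (ka_one 0).trans' zero_le_one
  | succ n ih => push_cast; linarith [ka_step n]
lemma G_le_w (n : ℕ) : G n ≤ w (n + 1) := by
  have h1 := T_ge (n := n) (a_two n) (r := w n) (by linarith [w_five n])
  rw [w_succ]
  have := G_a n
  have := w_five n
  have := w_G n
  nlinarith

def E (k : ℕ) (r : ℝ) : ℝ := Real.exp (a k * (r - ka k))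

lemma E_pos (k : ℕ) (r : ℝ) : 0 < E k r := Real.exp_pos _
lemma E_mono (k : ℕ) {r s : ℝ} (h : r ≤ s) : E k r ≤ E k s := by
  unfold E
  have := a_two k
  gcongr

lemma E_small {k : ℕ} {r : ℝ} (h : r ≤ ka k - 1) : E k r ≤ 1 / 2 / 2 ^ k := by
  have h1 : E k r ≤ Real.exp (-((k + 1 : ℕ) : ℝ)) := by
    unfold E
    apply Real.exp_le_exp.2
    have := a_ge k
    have := a_two k
    push_cast
    nlinarith
  refine h1.trans ?_
  have h2 : (2 : ℝ) ^ (k + 1) ≤ Real.exp ((k + 1 : ℕ) : ℝ) := by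
    rw [← mul_one ((k + 1 : ℕ) : ℝ), Real.exp_nat_mul]
    gcongr
    linarith [Real.add_one_le_exp 1]
  rw [Real.exp_neg, div_div, ← pow_succ', one_div]
  exact inv_anti₀ (by positivity) h2

lemma sumE_le_T (n : ℕ) {r : ℝ} (hr : 0 ≤ r) : ∑ k ∈ range (n + 1), E k r + 1 ≤ T n (a n) r := by
  unfold T
  have : ∑ k ∈ range (n + 1), E k r ≤ ∑ _k ∈ range (n + 1), Real.exp (a n * r) := by
    apply sum_le_sum
    intro k hk
    unfold E
    apply Real.exp_le_exp.2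
    have h1 : a k ≤ a n := a_mono (by simpa [Nat.lt_succ_iff] using hk)
    have h2 := ka_one k
    have h3 := a_two k
    nlinarith
  simp at this
  linarith

lemma sumE_le_G (n : ℕ) {r : ℝ} (hr : 0 ≤ r) (h : r ≤ ka (n + 1)) :
    ∑ k ∈ range n, E k r ≤ G n := by
  cases n with
  | zero => simp [G_zero]
  | succ n =>
    have h1 := sumE_le_T n hr
    have h2 : r ≤ (T n (a n))^[2] (w n) := by
      have := T_ge' (n := n) (a_two n) (r := w (n + 1)) (by linarith [w_five (n + 1)])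
      rw [ka_succ] at h
      show r ≤ T n (a n) (w (n + 1))
      linarith
    have h3 : T n (a n) r ≤ (T n (a n))^[3] (w n) := by
      rw [Function.iterate_succ_apply' _ 2]
      exact T_mono (by linarith [a_two n]) h2
    have h4 := T_iter_mono (n := n) (a_two n) (r := w n) (by linarith [w_five n])
      (show 3 ≤ n + 3 by omega)
    rw [G_succ]; linarith

def sg (n : ℕ) : ℝ := (-1) ^ Nat.sqrt n

lemma sg_sq (n : ℕ) : sg n * sg n = 1 := by
  unfold sg; rw [← mul_pow]; simp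
lemma sg_abs (n : ℕ) : |sg n| = 1 := by
  unfold sg; simp

def tr (k : ℕ) (x : ℝ) : ℝ := sg (k + 1) * E k (sg k * x)
def t (k : ℕ) (z : ℂ) : ℂ := (sg (k + 1) : ℂ) * Complex.exp (a k * (sg k * z - ka k))
def f (z : ℂ) : ℂ := ∑' k, t k z
def fr (x : ℝ) : ℝ := ∑' k, tr k x

lemma t_real (k : ℕ) (x : ℝ) : t k x = tr k x := by
  unfold t tr E
  push_cast; rfl

lemma f_real (x : ℝ) : f x = fr x := by
  unfold f fr
  rw [Complex.ofReal_tsum]
  simp only [t_real]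

lemma norm_t (k : ℕ) (z : ℂ) : ‖t k z‖ = E k (sg k * z.re) := by
  unfold t E
  rw [norm_mul, Complex.norm_real, Real.norm_eq_abs, sg_abs, one_mul, Complex.norm_exp]
  simp

lemma sg_re_le (k : ℕ) (z : ℂ) : sg k * z.re ≤ ‖z‖ := by
  refine (le_abs_self _).trans ?_
  rw [abs_mul, sg_abs, one_mul]
  exact Complex.abs_re_le_norm z

lemma norm_t_le (k : ℕ) {z : ℂ} {r : ℝ} (h : ‖z‖ ≤ r) : ‖t k z‖ ≤ E k r := by
  rw [norm_t]; exact E_mono k ((sg_re_le k z).trans h)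

lemma summable_E (r : ℝ) : Summable fun k => E k r := by
  refine Summable.of_norm_bounded_eventually_nat (summable_geometric_two' 1) ?_
  obtain ⟨N, hN⟩ := exists_nat_ge (r + 1)
  refine eventually_atTop.2 ⟨N, fun k hk => ?_⟩
  rw [Real.norm_eq_abs, abs_of_pos (E_pos k r)]
  apply E_small
  have h1 := ka_ge k
  have h2 : (N : ℝ) ≤ k := by exact_mod_cast hk
  linarith

lemma summable_t (z : ℂ) : Summable fun k => t k z :=
  Summable.of_norm_bounded (summable_E ‖z‖) fun k => norm_t_le k le_rfl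

lemma diff_f : Differentiable ℂ f := by
  intro z
  have h : DifferentiableOn ℂ f (Metric.ball 0 (‖z‖ + 1)) :=
    Complex.differentiableOn_tsum_of_summable_norm (summable_E (‖z‖ + 1))
      (fun k => by unfold t; fun_prop) Metric.isOpen_ball
      (fun k y hy => norm_t_le k (by simpa using (mem_ball_zero_iff.1 hy).le))
  exact h.differentiableAt (Metric.isOpen_ball.mem_nhds (by simp))

lemma tail (n : ℕ) {z : ℂ} (h : ∀ k, n ≤ k → sg k * z.re ≤ ka k - 1) :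
    ‖f z - ∑ k ∈ range n, t k z‖ ≤ 1 := by
  have h1 := (summable_t z).sum_add_tsum_nat_add n
  have h2 : f z - ∑ k ∈ range n, t k z = ∑' k, t (k + n) z := by
    unfold f; rw [← h1]; ring
  rw [h2]
  refine tsum_of_norm_bounded (hasSum_geometric_two' 1) fun k => ?_
  rw [norm_t]
  refine (E_small (h _ (by omega))).trans ?_
  gcongr
  · norm_num
  · omega

lemma upper_gen (n : ℕ) {z : ℂ} {r : ℝ} (hz : ‖z‖ ≤ r)
    (h : ∀ k, n ≤ k → sg k * z.re ≤ ka k - 1) : ‖f z‖ ≤ ∑ k ∈ range n, E k r + 1 := by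
  have h1 := tail n h
  have h2 : ‖∑ k ∈ range n, t k z‖ ≤ ∑ k ∈ range n, E k r :=
    norm_sum_le_of_le _ fun k _ => norm_t_le k hz
  have h3 := norm_add_le (f z - ∑ k ∈ range n, t k z) (∑ k ∈ range n, t k z)
  rw [sub_add_cancel] at h3
  linarith

lemma tail_cond (n : ℕ) {z : ℂ} {r : ℝ} (hz : ‖z‖ ≤ r) (h : r ≤ ka n - 1) :
    ∀ k, n ≤ k → sg k * z.re ≤ ka k - 1 := fun k hk => by
  linarith [sg_re_le k z, ka_mono hk]

lemma upper1 (n : ℕ) {z : ℂ} {r : ℝ} (hz : ‖z‖ ≤ r) (h : r ≤ ka (n + 1) - 1) :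
    ‖f z‖ ≤ E n r + G n + 1 := by
  have h1 := upper_gen (n + 1) hz (tail_cond _ hz h)
  rw [sum_range_succ] at h1
  have h2 := sumE_le_G n ((norm_nonneg z).trans hz) (by linarith)
  linarith

lemma upper2 (n : ℕ) {z : ℂ} (hz : ‖z‖ ≤ w n) : ‖f z‖ ≤ w (n + 1) :=
  (upper_gen (n + 1) hz (tail_cond _ hz (by rw [ka_succ]; linarith))).trans
    (sumE_le_T n (by linarith [w_five n]))

lemma upper3 (e : ℕ) {z : ℂ} {r : ℝ} (hz : ‖z‖ ≤ r) (h : r ≤ ka (e + 3) - 1)
    (h1 : sg (e + 1) * z.re ≤ 0) (h2 : sg (e + 2) * z.re ≤ 0) : ‖f z‖ ≤ T e (a e) r := by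
  refine (upper_gen (e + 1) hz fun k hk => ?_).trans (sumE_le_T e ((norm_nonneg z).trans hz))
  by_cases c1 : k = e + 1
  · rw [c1]; linarith [ka_one (e + 1)]
  by_cases c2 : k = e + 2
  · rw [c2]; linarith [ka_one (e + 2)]
  exact tail_cond _ hz h k (by omega)

lemma upper4 {z : ℂ} (hz : z.re = 0) : ‖f z‖ ≤ 1 := by
  simpa using upper_gen 0 (le_refl ‖z‖) fun k _ => by rw [hz]; linarith [ka_one k]

lemma dom (n : ℕ) {y : ℝ} (h0 : 0 ≤ y) (h : y ≤ ka (n + 1) - 1) :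
    E n y - G n - 1 ≤ sg (n + 1) * fr (sg n * y) := by
  have hz : ‖((sg n * y : ℝ) : ℂ)‖ ≤ y := by
    rw [Complex.norm_real, Real.norm_eq_abs, abs_mul, sg_abs, one_mul, abs_of_nonneg h0]
  have h1 := tail (n + 1) (tail_cond _ hz h)
  rw [sum_range_succ] at h1
  have h2 : ‖∑ k ∈ range n, t k ((sg n * y : ℝ) : ℂ)‖ ≤ G n :=
    (norm_sum_le_of_le _ fun k _ => norm_t_le k hz).trans (sumE_le_G n h0 (by linarith))
  have h3 : ‖f ((sg n * y : ℝ) : ℂ) - t n ((sg n * y : ℝ) : ℂ)‖ ≤ G n + 1 := by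
    have := norm_add_le (f ((sg n * y : ℝ) : ℂ) - (∑ k ∈ range n, t k ((sg n * y : ℝ) : ℂ)
      + t n ((sg n * y : ℝ) : ℂ))) (∑ k ∈ range n, t k ((sg n * y : ℝ) : ℂ))
    have e : f ((sg n * y : ℝ) : ℂ) - (∑ k ∈ range n, t k ((sg n * y : ℝ) : ℂ)
      + t n ((sg n * y : ℝ) : ℂ)) + ∑ k ∈ range n, t k ((sg n * y : ℝ) : ℂ)
        = f ((sg n * y : ℝ) : ℂ) - t n ((sg n * y : ℝ) : ℂ) := by ring
    rw [e] at this
    linarith
  rw [f_real, t_real, ← Complex.ofReal_sub, Complex.norm_real, Real.norm_eq_abs] at h3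
  have h4 : |sg (n + 1) * (fr (sg n * y) - tr n (sg n * y))| ≤ G n + 1 := by
    rw [abs_mul, sg_abs, one_mul]; exact h3
  have h5 : sg (n + 1) * tr n (sg n * y) = E n y := by
    unfold tr
    rw [← mul_assoc, sg_sq, ← mul_assoc, sg_sq, one_mul, one_mul]
  rw [mul_sub, h5, abs_le] at h4
  linarith [h4.1]

end

end Pool.Agent.H633Z.Fast
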