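import Pool.Agent.H633Z.FastA

set_option autoImplicit false
open Filter Set Topology Finset

namespace Pool.Agent.H633Z.Fast

noncomputable section

def M (r : ℝ) : ℝ := sSup ((fun z => ‖f z‖) '' Metric.sphere (0 : ℂ) r)

lemma M_le {r C : ℝ} (hr : 0 ≤ r) (h : ∀ z : ℂ, ‖z‖ ≤ r → ‖f z‖ ≤ C) : M r ≤ C := by
  apply csSup_le
  · exact (NormedSpace.sphere_nonempty.2 hr).image _
  · rintro _ ⟨z, hz, rfl⟩
    exact h z (by simpa using (mem_sphere_zero_iff_norm.1 hz).le)

lemma le_M {r : ℝ} (hr : 0 < r) {z : ℂ} (hz : ‖z‖ ≤ r) : ‖f z‖ ≤ M r := by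
  have hb : BddAbove ((fun z => ‖f z‖) '' Metric.sphere (0 : ℂ) r) :=
    ((isCompact_sphere 0 r).image diff_f.continuous.norm).bddAbove
  refine Complex.norm_le_of_forall_mem_frontier_norm_le (U := Metric.ball 0 r)
    Metric.isBounded_ball diff_f.diffContOnCl (fun y hy => ?_) ?_
  · rw [frontier_ball _ hr.ne'] at hy
    exact le_csSup hb ⟨y, hy, rfl⟩
  · rw [closure_ball _ hr.ne']
    simpa using hz

lemma E_two (n : ℕ) : 2 * G n + 1 < E n (ka n + 2) := by
  unfold E
  have h1 := Real.add_one_le_exp (a n * (ka n + 2 - ka n))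
  have h2 := G_a n
  have h3 := a_two n
  nlinarith

lemma LB (n : ℕ) {r : ℝ} (h : ka n + 2 ≤ r) : G n < M r := by
  have k1 := ka_one n
  have h1 := dom n (y := ka n + 2) (by linarith) (by linarith [ka_step n])
  have h2 : ‖((sg n * (ka n + 2) : ℝ) : ℂ)‖ ≤ r := by
    rw [Complex.norm_real, Real.norm_eq_abs, abs_mul, sg_abs, one_mul, abs_of_nonneg (by linarith)]
    exact h
  have h3 := le_M (by linarith) h2
  rw [f_real, Complex.norm_real, Real.norm_eq_abs] at h3
  have h4 : sg (n + 1) * fr (sg n * (ka n + 2)) ≤ |fr (sg n * (ka n + 2))| := by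
    refine (le_abs_self _).trans ?_
    rw [abs_mul, sg_abs, one_mul]
  linarith [E_two n]

lemma lt_M {r : ℝ} (h : 3 ≤ r) : r < M r := by
  have hex : ∃ n : ℕ, r ≤ ka (n + 1) + 2 := by
    obtain ⟨N, hN⟩ := exists_nat_ge r
    exact ⟨N, by linarith [ka_ge N, ka_step N]⟩
  classical
  have h1 := Nat.find_spec hex
  have h2 : ka (Nat.find hex) + 2 ≤ r := by
    rcases hn : Nat.find hex with _ | n
    · show (1 : ℝ) + 2 ≤ r
      linarith
    · have := Nat.find_min hex (m := n) (by omega)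
      linarith
  have h3 := LB _ h2
  rw [ka_succ] at h1
  linarith [w_G (Nat.find hex)]

lemma u_ge (n : ℕ) : 3 ≤ M^[n] 4 := by
  induction n with
  | zero => norm_num
  | succ n ih => rw [Function.iterate_succ_apply']; linarith [lt_M ih]

lemma v_ge (n : ℕ) : ka (n + 1) + 2 ≤ M^[n] 9 := by
  induction n with
  | zero => rw [ka_succ, w_zero]; norm_num
  | succ n ih =>
    rw [Function.iterate_succ_apply', ka_succ]
    linarith [LB _ ih, w_G (n + 1)]

def x : ℕ → ℝ
  | 0 => 5
  | n + 1 => sg (n + 1) * fr (sg n * x n)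

lemma orbit (n : ℕ) : f^[n] ((sg 0 * 5 : ℝ) : ℂ) = ((sg n * x n : ℝ) : ℂ) := by
  induction n with
  | zero => rfl
  | succ n ih =>
    rw [Function.iterate_succ_apply', ih, f_real]
    congr 1
    show _ = sg (n + 1) * (sg (n + 1) * _)
    rw [← mul_assoc, sg_sq, one_mul]

lemma norm_sx (n : ℕ) {y : ℝ} (h : 0 ≤ y) : ‖((sg n * y : ℝ) : ℂ)‖ = y := by
  rw [Complex.norm_real, Real.norm_eq_abs, abs_mul, sg_abs, one_mul, abs_of_nonneg h]

lemma x_inv (n : ℕ) : M^[n] 4 + 1 ≤ x n ∧ ka n + 2 ≤ x n ∧ x n ≤ w n := by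
  induction n with
  | zero =>
    refine ⟨?_, ?_, ?_⟩
    · show (4 : ℝ) + 1 ≤ 5
      norm_num
    · show (1 : ℝ) + 2 ≤ 5
      norm_num
    · show (5 : ℝ) ≤ 5
      norm_num
  | succ n ih =>
    obtain ⟨h1, h2, h3⟩ := ih
    have k1 := ka_one n
    have hd : E n (x n) - G n - 1 ≤ x (n + 1) := dom n (by linarith) (by rw [ka_succ]; linarith)
    refine ⟨?_, ?_, ?_⟩
    · rw [Function.iterate_succ_apply']
      have a1 : M (M^[n] 4) ≤ E n (x n - 1) + G n + 1 :=
        M_le (by linarith [u_ge n]) fun z hz => upper1 n (by linarith) (by rw [ka_succ]; linarith)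
      have a2 : E n (x n) = E n (x n - 1) * Real.exp (a n) := by
        unfold E; rw [← Real.exp_add]; congr 1; ring
      have a3 : Real.exp (a n) ≤ E n (x n - 1) := by
        unfold E
        apply Real.exp_le_exp.2
        have := a_two n
        nlinarith
      have a4 := Real.add_one_le_exp (a n)
      have a5 := G_a n
      have a6 := a_two n
      have a7 : E n (x n - 1) * 2 ≤ E n (x n - 1) * Real.exp (a n) := by
        have := E_pos n (x n - 1)
        gcongr; linarith
      linarith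
    · have a1 := E_mono n h2
      have a2 := E_two n
      rw [ka_succ]
      linarith [w_G n]
    · have a1 := upper2 n (z := ((sg n * x n : ℝ) : ℂ)) (by rw [norm_sx n (by linarith)]; exact h3)
      rw [f_real, Complex.norm_real, Real.norm_eq_abs] at a1
      have a2 : x (n + 1) ≤ |fr (sg n * x n)| := by
        refine (le_abs_self _).trans ?_
        show |sg (n + 1) * _| ≤ _
        rw [abs_mul, sg_abs, one_mul]
      linarith

def A (R : ℝ) : Set ℂ := {z : ℂ | ∀ n : ℕ, M^[n] R ≤ ‖f^[n] z‖}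

lemma z0_mem : ((sg 0 * 5 : ℝ) : ℂ) ∈ A 4 := by
  intro n
  have h := x_inv n
  rw [orbit, norm_sx n (by linarith [h.2.1, ka_one n])]
  linarith [h.1]

lemma itin {z : ℂ} (hz : z ∈ connectedComponentIn (A 4) ((sg 0 * 5 : ℝ) : ℂ)) (n : ℕ) :
    0 < sg n * (f^[n] z).re := by
  by_contra h
  push Not at h
  have hc : Continuous fun y : ℂ => sg n * (f^[n] y).re :=
    continuous_const.mul (Complex.continuous_re.comp (diff_f.continuous.iterate n))
  have h0 : 0 ≤ sg n * (f^[n] ((sg 0 * 5 : ℝ) : ℂ)).re := by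
    rw [orbit, Complex.ofReal_re, ← mul_assoc, sg_sq, one_mul]
    linarith [(x_inv n).2.1, ka_one n]
  obtain ⟨y, hy, hy0⟩ := isPreconnected_connectedComponentIn.intermediate_value hz
    (mem_connectedComponentIn z0_mem) hc.continuousOn ⟨h, h0⟩
  have h1 : (f^[n] y).re = 0 := by
    have h2 : sg n * (sg n * (f^[n] y).re) = 0 := by
      have : sg n * (f^[n] y).re = 0 := hy0
      rw [this, mul_zero]
    rwa [← mul_assoc, sg_sq, one_mul] at h2
  have h2 := upper4 h1
  have h3 := connectedComponentIn_subset _ _ hy (n + 1)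
  rw [Function.iterate_succ_apply' f] at h3
  linarith [u_ge (n + 1)]

lemma not_fast {z : ℂ} (hz : ∀ n, 0 < sg n * (f^[n] z).re) : z ∉ A 9 := by
  intro hA
  obtain ⟨i, hi⟩ := exists_nat_ge ‖z‖
  have h1 : ∀ n, ‖f^[n] z‖ ≤ w (n + i) := by
    intro n
    induction n with
    | zero => simp only [Function.iterate_zero, id, zero_add]; linarith [w_ge i]
    | succ n ih =>
      rw [Function.iterate_succ_apply', show n + 1 + i = n + i + 1 by ring]
      exact upper2 _ ih
  set m := i * i + i with hm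
  set e := m + i with he
  have s1 : ∀ j, j ≤ i → sg (m + j) = (-1) ^ i := fun j hj => by
    unfold sg
    congr 1
    symm
    rw [Nat.eq_sqrt]
    constructor <;> nlinarith
  have s2 : ∀ j, 1 ≤ j → j ≤ 2 → sg (e + j) = -(-1) ^ i := fun j hj hj' => by
    unfold sg
    have : i + 1 = Nat.sqrt (e + j) := by
      rw [Nat.eq_sqrt]
      constructor <;> nlinarith
    rw [← this, pow_succ]; ring
  have hw : 1 ≤ w e := by linarith [w_five e]
  have h2 : ∀ j, j ≤ i + 1 → ‖f^[m + j] z‖ ≤ (T e (a e))^[j] (w e) := by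
    intro j
    induction j with
    | zero =>
      intro _
      have := h1 m
      simp only [add_zero, Function.iterate_zero, id]
      exact this
    | succ j ih =>
      intro hj
      have b1 := ih (by omega)
      have b2 : (T e (a e))^[j] (w e) ≤ G (e + 1) :=
        T_iter_mono (a_two e) hw (by omega)
      have b3 := G_le_w (e + 1)
      have b4 := hz (m + j)
      rw [s1 j (by omega)] at b4
      rw [← add_assoc, Function.iterate_succ_apply', Function.iterate_succ_apply']
      apply upper3 e b1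
      · rw [show e + 3 = e + 2 + 1 by ring, ka_succ]; linarith
      · rw [s2 1 le_rfl (by norm_num)]; linarith
      · rw [s2 2 (by norm_num) le_rfl]; linarith
  have h3 := h2 (i + 1) le_rfl
  have h4 : (T e (a e))^[i + 1] (w e) ≤ G (e + 1) := T_iter_mono (a_two e) hw (by omega)
  have h5 := hA (e + 1)
  rw [Function.iterate_succ_apply' M] at h5
  have h6 := LB _ (v_ge e)
  rw [show m + (i + 1) = e + 1 by omega] at h3
  linarith

lemma not_poly : ¬ ∃ p : Polynomial ℂ, ∀ z : ℂ, f z = p.eval z := by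
  rintro ⟨p, hp⟩
  by_cases hd : 0 < p.degree
  · have hz : Tendsto (fun n : ℕ => ‖(n : ℂ) * Complex.I‖) atTop atTop := by
      simpa using tendsto_natCast_atTop_atTop
    have h := p.tendsto_norm_atTop hd hz
    obtain ⟨N, hN⟩ := eventually_atTop.1 (h.eventually (eventually_gt_atTop 1))
    have h1 := hN N le_rfl
    rw [← hp] at h1
    linarith [upper4 (z := (N : ℂ) * Complex.I) (by simp)]
  · push Not at hd
    rw [Polynomial.eq_C_of_degree_le_zero hd] at hp
    have h1 : M 3 ≤ 1 := M_le (by norm_num) fun z _ => by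
      have := upper4 (z := 0) (by simp)
      rw [hp] at this ⊢
      simpa using this
    linarith [lt_M (le_refl 3)]

theorem main :
    ¬ (∀ f : ℂ → ℂ, Differentiable ℂ f →
      (¬ ∃ p : Polynomial ℂ, ∀ z : ℂ, f z = p.eval z) →
      ∀ R R' : ℝ,
        (∃ R₀ : ℝ, 0 < R₀ ∧ R₀ < R ∧
          ∀ r : ℝ, R₀ ≤ r → r < sSup ((fun z => ‖f z‖) '' Metric.sphere (0 : ℂ) r)) →
        R < R' →
        ∀ z₀ : ℂ,
          z₀ ∈ {z : ℂ | ∀ n : ℕ,
            (fun r : ℝ => sSup ((fun w => ‖f w‖) '' Metric.sphere (0 : ℂ) r))^[n] R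
              ≤ ‖f^[n] z‖} →
          (connectedComponentIn
              {z : ℂ | ∀ n : ℕ,
                (fun r : ℝ => sSup ((fun w => ‖f w‖) '' Metric.sphere (0 : ℂ) r))^[n] R
                  ≤ ‖f^[n] z‖} z₀ ∩
            {z : ℂ | ∀ n : ℕ,
                (fun r : ℝ => sSup ((fun w => ‖f w‖) '' Metric.sphere (0 : ℂ) r))^[n] R'
                  ≤ ‖f^[n] z‖}).Nonempty) := by
  intro h
  obtain ⟨z, hz1, hz2⟩ := h f diff_f not_poly 4 9 ⟨3, by norm_num, by norm_num, fun r hr => lt_M hr⟩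
    (by norm_num) _ z0_mem
  exact not_fast (itin hz1) hz2

end

end Pool.Agent.H633Z.Fast
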